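import Mathlib

/-!
# Lemmas for `P_small` of the project QG (`8 G ± 5 π²/6`): factorial products and partial sums
-/

namespace Pool.Agent.H103R2.QG

/-- `|m|_p⁻¹ ≤ p ^ log_p N` for `0 < m ≤ N` -/
theorem inv_norm_le {p : ℕ} [Fact p.Prime] {m N : ℕ} (h0 : m ≠ 0) (h : m ≤ N) :
    (padicNorm p (m : ℚ))⁻¹ ≤ (p : ℚ) ^ Nat.log p N := by
  have hp : p.Prime := Fact.out
  have hm : (m : ℚ) ≠ 0 := by exact_mod_cast h0
  rw [padicNorm.eq_zpow_of_nonzero hm, padicValRat.of_nat, ← zpow_neg, neg_neg, zpow_natCast]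
  apply pow_le_pow_right₀ (by exact_mod_cast hp.one_lt.le)
  exact (padicValNat_le_nat_log m).trans (Nat.log_mono_right h)

theorem norm_inv_pow_le {p : ℕ} [Fact p.Prime] {m N i : ℕ} (h0 : m ≠ 0) (h : m ≤ N) :
    padicNorm p (1 / (m : ℚ) ^ i) ≤ ((p : ℚ) ^ Nat.log p N) ^ i := by
  rw [padicNorm.div, padicNorm.one, one_div]
  have e : padicNorm p ((m : ℚ) ^ i) = padicNorm p (m : ℚ) ^ i := by
    induction i with
    | zero => simp
    | succ i ih => rw [pow_succ, padicNorm.mul, ih, pow_succ]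
  rw [e, ← inv_pow]
  exact pow_le_pow_left₀ (inv_nonneg.2 (padicNorm.nonneg _)) (inv_norm_le h0 h) i

/-- **the bound for `fs σ i k`** (unfold `fs` first) -/
theorem fs_bound {p n : ℕ} [Fact p.Prime] (σ i k : ℕ) (hσ : σ = 1 ∨ σ = 3) (hk : k ≤ 8 * n) :
    padicNorm p (∑ j ∈ Finset.range k, 1 / ((j : ℚ) + (σ : ℚ) / 4) ^ i -
      ∑ j ∈ Finset.Ico 1 k, 1 / (j : ℚ) ^ i) ≤ ((p : ℚ) ^ Nat.log p (32 * n + 3)) ^ i := by
  have hp : p.Prime := Fact.out
  have hB : (0 : ℚ) ≤ ((p : ℚ) ^ Nat.log p (32 * n + 3)) ^ i := by positivity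
  refine (padicNorm.sub (p := p)).trans (max_le ?_ ?_)
  · refine padicNorm.sum_le' (fun j hj => ?_) hB
    rw [Finset.mem_range] at hj
    have e : 1 / ((j : ℚ) + (σ : ℚ) / 4) ^ i = (4 : ℚ) ^ i * (1 / ((4 * j + σ : ℕ) : ℚ) ^ i) := by
      have h4 : (j : ℚ) + (σ : ℚ) / 4 = ((4 * j + σ : ℕ) : ℚ) / 4 := by push_cast; ring
      rw [h4, div_pow]
      have : ((4 * j + σ : ℕ) : ℚ) ≠ 0 := by
        have : 4 * j + σ ≠ 0 := by omega
        exact_mod_cast this
      field_simp
    rw [e, padicNorm.mul]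
    have h1 : padicNorm p ((4 : ℚ) ^ i) ≤ 1 := by
      have := padicNorm.of_int (p := p) ((4 : ℤ) ^ i)
      push_cast at this
      exact this
    have h2 : padicNorm p (1 / ((4 * j + σ : ℕ) : ℚ) ^ i) ≤ ((p : ℚ) ^ Nat.log p (32 * n + 3)) ^ i :=
      norm_inv_pow_le (by omega) (by omega)
    calc _ ≤ 1 * ((p : ℚ) ^ Nat.log p (32 * n + 3)) ^ i :=
          mul_le_mul h1 h2 (padicNorm.nonneg _) (by norm_num)
      _ = _ := one_mul _
  · refine padicNorm.sum_le' (fun j hj => ?_) hB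
    rw [Finset.mem_Ico] at hj
    exact norm_inv_pow_le (by omega) (by omega)

/-- the same with the larger bound -/
theorem fs_bound' {p n : ℕ} [Fact p.Prime] (σ i k : ℕ) (hσ : σ = 1 ∨ σ = 3) (hk : k ≤ 8 * n) :
    padicNorm p (∑ j ∈ Finset.range k, 1 / ((j : ℚ) + (σ : ℚ) / 4) ^ i -
      ∑ j ∈ Finset.Ico 1 k, 1 / (j : ℚ) ^ i) ≤ ((p : ℚ) ^ (Nat.log p (32 * n + 3) + 1)) ^ i := by
  have hp : p.Prime := Fact.out
  refine (fs_bound σ i k hσ hk).trans (pow_le_pow_left₀ (by positivity) ?_ i)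
  exact pow_le_pow_right₀ (by exact_mod_cast hp.one_lt.le) (Nat.le_succ _)

/-- `∏_{a ≤ j ≤ b, j ≠ k} |j - k| = (k - a)! (b - k)!` -/
theorem prod_erase_abs (a b k : ℕ) (hak : a ≤ k) (hkb : k ≤ b) :
    ∏ j ∈ (Finset.Icc a b).erase k, |(j : ℚ) - k| = (((k - a).factorial * (b - k).factorial : ℕ) : ℚ) := by
  classical
  have hsplit : (Finset.Icc a b).erase k = Finset.Ico a k ∪ Finset.Ioc k b := by
    ext j
    simp only [Finset.mem_erase, Finset.mem_Icc, Finset.mem_union, Finset.mem_Ico, Finset.mem_Ioc]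
    omega
  have hdis : Disjoint (Finset.Ico a k) (Finset.Ioc k b) := by
    rw [Finset.disjoint_left]
    intro j h1 h2
    rw [Finset.mem_Ico] at h1
    rw [Finset.mem_Ioc] at h2
    omega
  rw [hsplit, Finset.prod_union hdis]
  have h1 : ∏ j ∈ Finset.Ico a k, |(j : ℚ) - k| = (((k - a).factorial : ℕ) : ℚ) := by
    rw [← Finset.prod_range_add_one_eq_factorial, Nat.cast_prod]
    apply Finset.prod_bij' (fun j _ => k - 1 - j) (fun i _ => k - 1 - i)
    · intro j hj
      rw [Finset.mem_Ico] at hj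
      rw [Finset.mem_range]
      omega
    · intro i hi
      rw [Finset.mem_range] at hi
      rw [Finset.mem_Ico]
      omega
    · intro j hj
      rw [Finset.mem_Ico] at hj
      omega
    · intro i hi
      rw [Finset.mem_range] at hi
      omega
    · intro j hj
      rw [Finset.mem_Ico] at hj
      have : (k : ℚ) = j + ((k - 1 - j + 1 : ℕ) : ℚ) := by
        exact_mod_cast (by omega : k = j + (k - 1 - j + 1))
      rw [this]
      rw [show (j : ℚ) - (j + ((k - 1 - j + 1 : ℕ) : ℚ)) = -((k - 1 - j + 1 : ℕ) : ℚ) by ring, abs_neg,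
        abs_of_nonneg (Nat.cast_nonneg _)]
  have h2 : ∏ j ∈ Finset.Ioc k b, |(j : ℚ) - k| = (((b - k).factorial : ℕ) : ℚ) := by
    rw [← Finset.prod_range_add_one_eq_factorial, Nat.cast_prod]
    apply Finset.prod_bij' (fun j _ => j - k - 1) (fun i _ => i + k + 1)
    · intro j hj
      rw [Finset.mem_Ioc] at hj
      rw [Finset.mem_range]
      omega
    · intro i hi
      rw [Finset.mem_range] at hi
      rw [Finset.mem_Ioc]
      omega
    · intro j hj
      rw [Finset.mem_Ioc] at hj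
      omega
    · intro i hi
      rw [Finset.mem_range] at hi
      omega
    · intro j hj
      rw [Finset.mem_Ioc] at hj
      have : (j : ℚ) = k + ((j - k - 1 + 1 : ℕ) : ℚ) := by
        exact_mod_cast (by omega : j = k + (j - k - 1 + 1))
      rw [this]
      rw [show (k : ℚ) + ((j - k - 1 + 1 : ℕ) : ℚ) - k = ((j - k - 1 + 1 : ℕ) : ℚ) by ring,
        abs_of_nonneg (Nat.cast_nonneg _)]
  rw [h1, h2]
  push_cast
  rfl

theorem norm_abs (p : ℕ) [Fact p.Prime] (x : ℚ) : padicNorm p |x| = padicNorm p x := by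
  rcases abs_cases x with h | h
  · rw [h.1]
  · rw [h.1, padicNorm.neg]

theorem norm_prod (p : ℕ) [Fact p.Prime] {ι : Type*} (s : Finset ι) (f : ι → ℚ) :
    padicNorm p (∏ i ∈ s, f i) = ∏ i ∈ s, padicNorm p (f i) := by
  classical
  refine Finset.induction_on s (by simp) ?_
  intro a s ha ih
  rw [Finset.prod_insert ha, Finset.prod_insert ha, padicNorm.mul, ih]

/-- **(i)** `|∏_{j ∈ S, j ≠ k} (j - k)|_p = |(k-n-1)! (8n-k)!|_p`, `S = {n+1, …, 8n}` -/
theorem node_norm {p n : ℕ} [Fact p.Prime] {k : ℕ} (hk : k ∈ Finset.Icc (n + 1) (8 * n)) :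
    padicNorm p (∏ j ∈ (Finset.Icc (n + 1) (8 * n)).erase k, ((j : ℚ) - k)) =
      padicNorm p (((k - n - 1).factorial * (8 * n - k).factorial : ℕ) : ℚ) := by
  rw [Finset.mem_Icc] at hk
  have h := prod_erase_abs (n + 1) (8 * n) k hk.1 hk.2
  have e : k - (n + 1) = k - n - 1 := by omega
  rw [e] at h
  rw [← h, norm_prod, norm_prod]
  exact Finset.prod_congr rfl fun j _ => (norm_abs p _).symm

/-- **(i')** `∏_{k ∈ S} (k-n-1)! (8n-k)! = (∏_{i<7n} i!)²` -/
theorem prod_factorials (n : ℕ) :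
    ∏ k ∈ Finset.Icc (n + 1) (8 * n), ((k - n - 1).factorial * (8 * n - k).factorial) =
      (∏ i ∈ Finset.range (7 * n), i.factorial) ^ 2 := by
  rw [Finset.prod_mul_distrib, sq]
  congr 1
  · apply Finset.prod_bij' (fun k _ => k - n - 1) (fun i _ => i + n + 1)
    · intro k hk
      rw [Finset.mem_Icc] at hk
      rw [Finset.mem_range]
      omega
    · intro i hi
      rw [Finset.mem_range] at hi
      rw [Finset.mem_Icc]
      omega
    · intro k hk
      rw [Finset.mem_Icc] at hk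
      omega
    · intro i hi
      omega
    · intro k hk
      rfl
  · apply Finset.prod_bij' (fun k _ => 8 * n - k) (fun i _ => 8 * n - i)
    · intro k hk
      rw [Finset.mem_Icc] at hk
      rw [Finset.mem_range]
      omega
    · intro i hi
      rw [Finset.mem_range] at hi
      rw [Finset.mem_Icc]
      omega
    · intro k hk
      rw [Finset.mem_Icc] at hk
      omega
    · intro i hi
      rw [Finset.mem_range] at hi
      omega
    · intro k hk
      rfl

/-- the product of the norms of the node products -/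
theorem prod_node_norm {p n : ℕ} [Fact p.Prime] :
    ∏ k ∈ Finset.Icc (n + 1) (8 * n),
      padicNorm p (∏ j ∈ (Finset.Icc (n + 1) (8 * n)).erase k, ((j : ℚ) - k)) =
      (∏ i ∈ Finset.range (7 * n), padicNorm p ((i.factorial : ℕ) : ℚ)) ^ 2 := by
  rw [Finset.prod_congr rfl fun k hk => node_norm hk, ← norm_prod, ← Nat.cast_prod, prod_factorials,
    Nat.cast_pow, Nat.cast_prod, sq, padicNorm.mul, norm_prod, sq]

/-- **(ii)** `(2n)! / (n-1)!²` is an integer -/
theorem central_int {n : ℕ} (hn : 1 ≤ n) : (((n - 1).factorial : ℕ)) ^ 2 ∣ (2 * n).factorial := by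
  have h1 : (n - 1).factorial * (n + 1).factorial ∣ (2 * n).factorial := by
    have := Nat.factorial_mul_factorial_dvd_factorial_add (n - 1) (n + 1)
    have e : n - 1 + (n + 1) = 2 * n := by omega
    rwa [e] at this
  refine dvd_trans ?_ h1
  rw [sq]
  exact Nat.mul_dvd_mul_left _ (Nat.factorial_dvd_factorial (by omega))

theorem central_norm {p n : ℕ} [Fact p.Prime] (hn : 1 ≤ n) :
    padicNorm p (((2 * n).factorial : ℕ) / (((n - 1).factorial : ℕ) : ℚ) ^ 2) ≤ 1 := by
  obtain ⟨c, hc⟩ := central_int hn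
  have h0 : (((n - 1).factorial : ℕ) : ℚ) ≠ 0 := by exact_mod_cast Nat.factorial_ne_zero _
  rw [hc]
  push_cast
  rw [mul_div_cancel_left₀ _ (pow_ne_zero 2 h0)]
  exact padicNorm.of_nat c

end Pool.Agent.H103R2.QG
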