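import Pool.Agent.H397R2.QG.Defs
import Pool.Agent.H103R2.QG.Small

/-! The bound for the partial sums `fs` (project QG). -/

namespace Pool.Agent.H397R2.QG

theorem PS_fs (p n σ i k : ℕ) [Fact p.Prime] (hσ : σ = 1 ∨ σ = 3) (hi : i ≤ 2) (hk : k ≤ 8 * n) :
    padicNorm p (fs σ i k) ≤ ((32 * n + 3 : ℕ) : ℚ) ^ 2 := by
  have h := Pool.Agent.H103R2.QG.fs_bound (p := p) (n := n) σ i k hσ hk
  have h1 : (1 : ℚ) ≤ ((32 * n + 3 : ℕ) : ℚ) := by exact_mod_cast (by omega : 1 ≤ 32 * n + 3)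
  have h2 : (p : ℚ) ^ Nat.log p (32 * n + 3) ≤ ((32 * n + 3 : ℕ) : ℚ) := by
    exact_mod_cast Nat.pow_log_le_self p (by omega)
  unfold fs
  calc _ ≤ ((p : ℚ) ^ Nat.log p (32 * n + 3)) ^ i := h
    _ ≤ ((32 * n + 3 : ℕ) : ℚ) ^ i := pow_le_pow_left₀ (by positivity) h2 i
    _ ≤ ((32 * n + 3 : ℕ) : ℚ) ^ 2 := pow_le_pow_right₀ h1 hi

end Pool.Agent.H397R2.QG
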