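import Mathlib

/-! Legendre estimate for `P_small` of the project QG. -/

namespace Pool.Agent.H397R2.QG

lemma PS_dig (p N M : ℕ) [Fact p.Prime] (h : N ≤ M) :
    (p.digits N).sum ≤ (p - 1) * (Nat.log p M + 1) := by
  have hp : p.Prime := Fact.out
  rcases Nat.eq_zero_or_pos N with h0 | h0
  · subst h0
    simp
  · have h1 : ∀ d ∈ p.digits N, d ≤ p - 1 := fun d hd => by
      have := Nat.digits_lt_base hp.one_lt hd
      omega
    have h2 : (p.digits N).sum ≤ (p.digits N).length * (p - 1) := by
      have := List.sum_le_card_nsmul (p.digits N) (p - 1) h1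
      simpa using this
    have h3 : (p.digits N).length = Nat.log p N + 1 := Nat.digits_len p N hp.one_lt h0.ne'
    have h4 : Nat.log p N ≤ Nat.log p M := Nat.log_mono_right h
    rw [h3] at h2
    calc (p.digits N).sum ≤ (Nat.log p N + 1) * (p - 1) := h2
      _ ≤ (Nat.log p M + 1) * (p - 1) := Nat.mul_le_mul_right _ (by omega)
      _ = _ := Nat.mul_comm _ _

lemma PS_up (p N : ℕ) [Fact p.Prime] : (p - 1) * padicValNat p N.factorial ≤ N := by
  rw [sub_one_mul_padicValNat_factorial]
  exact Nat.sub_le _ _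

lemma PS_lo (p N M : ℕ) [Fact p.Prime] (h : N ≤ M) :
    N ≤ (p - 1) * padicValNat p N.factorial + (p - 1) * (Nat.log p M + 1) := by
  rw [sub_one_mul_padicValNat_factorial]
  have := PS_dig p N M h
  omega

lemma PS_V (p M : ℕ) [Fact p.Prime] (m : ℕ) (h : m ≤ M) :
    m * m ≤ 2 * ((p - 1) * padicValNat p (∏ i ∈ Finset.range m, i.factorial)) +
      2 * (m * ((p - 1) * (Nat.log p M + 1))) + m := by
  induction m with
  | zero => simp
  | succ m ih =>
    have ih' := ih (by omega)
    have h1 : (∏ i ∈ Finset.range m, i.factorial) ≠ 0 :=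
      Finset.prod_ne_zero_iff.2 fun i _ => Nat.factorial_ne_zero i
    rw [Finset.prod_range_succ, padicValNat.mul h1 (Nat.factorial_ne_zero m)]
    have h2 := PS_lo p m M (by omega)
    nlinarith

theorem PS_leg (p n : ℕ) [Fact p.Prime] (hn : 1 ≤ n) :
    14 * n * padicValNat p (8 * n).factorial ≤ 7 * n * padicValNat p (2 * n).factorial +
      4 * padicValNat p (∏ i ∈ Finset.range (7 * n), i.factorial) +
      49 * (n * (Nat.log p (32 * n + 3) + 1)) := by
  have hp : p.Prime := Fact.out
  have hP : 1 ≤ p - 1 := by have := hp.two_le; omega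
  have hA := PS_up p (8 * n)
  have hB := PS_lo p (2 * n) (32 * n + 3) (by omega)
  have hV := PS_V p (32 * n + 3) (7 * n) (by omega)
  set P := p - 1 with hPdef
  set E := Nat.log p (32 * n + 3) + 1 with hE
  set a := padicValNat p (8 * n).factorial
  set b := padicValNat p (2 * n).factorial
  set V := padicValNat p (∏ i ∈ Finset.range (7 * n), i.factorial)
  have hF : 1 ≤ P * E := Nat.mul_pos hP (by omega)
  have key : P * (14 * n * a) ≤ P * (7 * n * b + 4 * V + 49 * (n * E)) := by
    have e1 : P * (14 * n * a) = 14 * (n * (P * a)) := by ring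
    have e2 : P * (7 * n * b + 4 * V + 49 * (n * E)) = 7 * (n * (P * b)) + 4 * (P * V) + 49 * (n * (P * E)) := by
      ring
    rw [e1, e2]
    have g1 : n * (P * a) ≤ n * (8 * n) := Nat.mul_le_mul_left n hA
    have g2 : n * (2 * n) ≤ n * (P * b + P * E) := Nat.mul_le_mul_left n hB
    have g3 : n * 1 ≤ n * (P * E) := Nat.mul_le_mul_left n hF
    have e3 : 7 * n * (7 * n) = 49 * (n * n) := by ring
    have e4 : 2 * (7 * n * (P * E)) = 14 * (n * (P * E)) := by ring
    have e5 : n * (8 * n) = 8 * (n * n) := by ring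
    have e6 : n * (2 * n) = 2 * (n * n) := by ring
    have e7 : n * (P * b + P * E) = n * (P * b) + n * (P * E) := by ring
    rw [e3, e4] at hV
    rw [e5] at g1
    rw [e6, e7] at g2
    omega
  exact Nat.le_of_mul_le_mul_left key hP

end Pool.Agent.H397R2.QG
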